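import Mathlib

namespace Pool.Agent.Results.MP_41a700_co.Counter

open SimpleGraph Set Sum

/-- A matroidal family of finite connected simple graphs. -/
structure Matroidal (P : ∀ V : Type, SimpleGraph V → Prop) : Prop where
  nonempty : ∃ V H, P V H
  conn : ∀ V H, P V H → Finite V ∧ H.Connected
  iso : ∀ V W (H : SimpleGraph V) (H' : SimpleGraph W), H ≃g H' → P V H → P W H'
  matroid : ∀ (V : Type) [Finite V] (G : SimpleGraph V), ∃ M : Matroid (Sym2 V),
    M.E = G.edgeSet ∧ ∀ C, M.IsCircuit C ↔ ∃ H : G.Subgraph, P _ H.coe ∧ C = H.edgeSet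

theorem result (m n : ℕ) (hm : 1 ≤ m) (hn : m * (m - 1) + 2 ≤ n)
    (P : ∀ V : Type, SimpleGraph V → Prop) (hP : Matroidal P) :
    ¬ P _ (completeBipartiteGraph (Fin m) (Fin n)) := by
  classical
  obtain ⟨a, rfl⟩ : ∃ a, m = a + 1 := ⟨m - 1, by omega⟩
  obtain ⟨b, rfl⟩ : ∃ b, n = b + 1 := ⟨n - 1, by omega⟩
  intro h
  replace h := hP.iso _ _ _ _ (completeBipartiteGraphCongr (finSuccEquiv a) (finSuccEquiv b)) h
  obtain ⟨j, hj⟩ : ∃ j, j = a * (a + 2 * b) + b * b + 1 := ⟨_, rfl⟩
  let V := (Fin a ⊕ Fin b ⊕ Fin b) ⊕ Fin j × (Option (Fin a) ⊕ Option (Fin b))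
  obtain ⟨M, hE, hC⟩ := hP.matroid V ⊤
  have c : ∀ f : Option (Fin a) ⊕ Option (Fin b) → V, f.Injective → M.IsCircuit
      (range fun p : Option (Fin a) × Option (Fin b) => s(f (inl p.1), f (inr p.2))) := by
    intro f hf
    let g : Copy (completeBipartiteGraph (Option (Fin a)) (Option (Fin b))) (⊤ : SimpleGraph V) :=
      ⟨⟨f, fun e => hf.ne e.ne⟩, hf⟩
    refine (hC _).mpr ⟨g.toSubgraph, hP.iso _ _ _ _ g.isoToSubgraph h, ?_⟩
    rw [Subgraph.edgeSet_map, Subgraph.edgeSet_top, edgeSet_completeBipartiteGraph, ← range_comp]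
    rfl
  let S : Finset (Sym2 V) := (Finset.univ.image (fun p : Fin a × V => s(inl (inl p.1), p.2)) ∪
    Finset.univ.image fun p : Fin b × Fin b => s(inl (inr (inl p.1)), inl (inr (inr p.2))))
  have cl : ∀ (x y : V) (B : Fin b → V), (Sum.elim (fun o => o.elim x fun i => inl (inl i))
      (fun o => o.elim y B) : Option (Fin a) ⊕ Option (Fin b) → V).Injective →
      (∀ k, s(x, B k) ∈ M.closure S) → s(x, y) ∈ M.closure S := by
    intro x y B hf hB
    refine M.closure_subset_closure_of_subset_closure ?_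
      ((c _ hf).mem_closure_sdiff_singleton_of_mem ⟨(none, none), rfl⟩)
    rintro _ ⟨⟨⟨_ | i, k⟩, rfl⟩, n⟩
    · cases k
      · exact absurd rfl n
      · exact hB _
    · refine M.mem_closure_of_mem' ?_ ((c _ hf).subset_ground ⟨_, rfl⟩)
      simp only [S, Finset.coe_union, Finset.coe_image]
      exact .inl ⟨(i, _), by simp, rfl⟩
  have c1 : ∀ k w, s(inr w, inl (inr (inl k))) ∈ M.closure S := fun k w => by
    rw [Sym2.eq_swap]
    refine cl _ _ (fun i => inl (inr (inr i))) ?_ fun i =>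
      M.mem_closure_of_mem' ?_ (by simp [hE, V])
    · rintro ((_ | _) | (_ | _)) ((_ | _) | (_ | _)) <;> simp [V]
    · simp only [S, Finset.coe_union, Finset.coe_image]
      exact .inr ⟨(k, i), by simp, rfl⟩
  let e : Fin j × (Option (Fin a) × Option (Fin b)) → Sym2 V :=
    fun p => s(inr (p.1, inl p.2.1), inr (p.1, inr p.2.2))
  have ei : e.Injective := by
    rintro ⟨_, _, _⟩ ⟨_, _, _⟩
    simp +contextual [e, V]
  let I := (Finset.univ ×ˢ Finset.univ.erase (none, none)).image e
  have i1 : (I : Set (Sym2 V)) ⊆ M.closure S := by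
    simp only [I, Finset.coe_image]
    rintro _ ⟨p, -, rfl⟩
    refine cl _ _ (fun i => inl (inr (inl i))) ?_ fun i => c1 _ _
    rintro ((_ | _) | (_ | _)) ((_ | _) | (_ | _)) <;> simp [V]
  have i2 : M.Indep I := by
    rw [Matroid.indep_iff_forall_subset_not_isCircuit (i1.trans (M.closure_subset_ground _))]
    intro C s hc
    obtain ⟨H, h1, rfl⟩ := (hC _).mp hc
    simp only [I, Finset.coe_image] at s
    obtain ⟨_, h2⟩ := hc.nonempty
    obtain ⟨p, -, rfl⟩ := s h2
    let φ : V → Option (Fin j) := Sum.elim (fun _ => none) fun q => some q.1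
    have k : ∀ u v : H.verts, φ u = φ v := fun u v => by
      obtain ⟨w⟩ := (hP.conn _ _ h1).2 u v
      induction w with
      | nil => rfl
      | cons r _ ih =>
        obtain ⟨q, -, r⟩ := s (Subgraph.mem_edgeSet.mpr r)
        rw [← ih]
        rcases Sym2.eq_iff.mp r with ⟨r1, r2⟩ | ⟨r1, r2⟩ <;> rw [← r1, ← r2] <;> rfl
    have c2 := c (fun x => inr (p.1, x)) fun _ _ r => by simpa [V] using r
    refine hc.not_indep (c2.ssubset_indep ⟨fun x hx => ?_, fun r => ?_⟩)
    · obtain ⟨q, -, rfl⟩ := s hx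
      have : q.1 = p.1 := Option.some.inj
        (k ⟨_, H.edge_vert hx⟩ ⟨_, H.edge_vert h2⟩)
      exact ⟨q.2, by rw [← this]⟩
    · obtain ⟨q, q1, q2⟩ := s (r ⟨(none, none), rfl⟩)
      rw [ei (q2.trans (show _ = e (p.1, none, none) from rfl))] at q1
      simp at q1
  have := (i2.encard_le_eRk_of_subset i1).trans ((M.eRk_closure_eq _).trans_le (M.eRk_le_encard _))
  rw [encard_coe_eq_coe_finsetCard, encard_coe_eq_coe_finsetCard, Nat.cast_le,
    Finset.card_image_of_injective _ ei] at this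
  have := this.trans ((Finset.card_union_le _ _).trans
    (add_le_add Finset.card_image_le Finset.card_image_le))
  simp only [Finset.card_product, Finset.card_univ, Finset.card_erase_of_mem (Finset.mem_univ _),
    Fintype.card_prod, Fintype.card_option, Fintype.card_fin, Fintype.card_sum, V,
    show (a + 1) * (b + 1) - 1 = a * b + a + b by ring_nf; omega] at this
  rw [Nat.add_sub_cancel] at hn
  nlinarith [Nat.mul_le_mul_left j hn]

end Pool.Agent.Results.MP_41a700_co.Counter
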